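import Pool.Agent.Helper70.BU.Goals

/-!
# Project TW, part BU, packet APXC: closure properties
-/

set_option autoImplicit false

namespace Pool.Agent.Helper20.BU

open MvPolynomial Pool.Agent.Helper70.BU

theorem apxc : APXC := by
  intro ι κ _ _ _ _ b
  refine ⟨?_, ?_, ?_, ?_⟩
  · intro χ
    refine ⟨⟨0, fun z _ => by simp⟩, fun K => ⟨0, 0, le_rfl, fun n _ m m' _ _ => ⟨0, fun u M _ z _ => ?_⟩⟩⟩
    simp
  · rintro G χ ⟨⟨B, hB⟩, h⟩
    refine ⟨⟨B, fun z hz => by rw [norm_neg]; exact hB z hz⟩, fun K => ?_⟩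
    obtain ⟨C, n₀, hC, H⟩ := h K
    refine ⟨C, n₀, hC, fun n hn m m' hm hs => ?_⟩
    obtain ⟨T, hT⟩ := H n hn m m' hm hs
    refine ⟨-T, fun u M hM z hz => ?_⟩
    have h1 := hT u M hM z hz
    have h2 : eval z (((-T) u : Pool.Agent.Helper70.BU.H b m') : MvPolynomial ι ℂ) -
        -G z * eval z (u : MvPolynomial ι ℂ) =
        -(eval z ((T u : Pool.Agent.Helper70.BU.H b m') : MvPolynomial ι ℂ) -
          G z * eval z (u : MvPolynomial ι ℂ)) := by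
      rw [LinearMap.neg_apply, Submodule.coe_neg, map_neg]
      ring
    rw [h2, norm_neg]
    exact h1
  · rintro G₁ G₂ χ ⟨⟨B₁, hB₁⟩, h₁⟩ ⟨⟨B₂, hB₂⟩, h₂⟩
    refine ⟨⟨B₁ + B₂, fun z hz => (norm_add_le _ _).trans (add_le_add (hB₁ z hz) (hB₂ z hz))⟩,
      fun K => ?_⟩
    obtain ⟨C₁, n₁, hC₁, H₁⟩ := h₁ K
    obtain ⟨C₂, n₂, hC₂, H₂⟩ := h₂ K
    refine ⟨C₁ + C₂, max n₁ n₂, add_nonneg hC₁ hC₂, fun n hn m m' hm hs => ?_⟩
    obtain ⟨T₁, hT₁⟩ := H₁ n ((le_max_left _ _).trans hn) m m' hm hs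
    obtain ⟨T₂, hT₂⟩ := H₂ n ((le_max_right _ _).trans hn) m m' hm hs
    refine ⟨T₁ + T₂, fun u M hM z hz => ?_⟩
    have h1 := hT₁ u M hM z hz
    have h2 := hT₂ u M hM z hz
    have h3 : eval z (((T₁ + T₂) u : Pool.Agent.Helper70.BU.H b m') : MvPolynomial ι ℂ) -
        (G₁ z + G₂ z) * eval z (u : MvPolynomial ι ℂ) =
        (eval z ((T₁ u : Pool.Agent.Helper70.BU.H b m') : MvPolynomial ι ℂ) -
          G₁ z * eval z (u : MvPolynomial ι ℂ)) +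
        (eval z ((T₂ u : Pool.Agent.Helper70.BU.H b m') : MvPolynomial ι ℂ) -
          G₂ z * eval z (u : MvPolynomial ι ℂ)) := by
      rw [LinearMap.add_apply, Submodule.coe_add, map_add]
      ring
    rw [h3]
    refine (norm_add_le _ _).trans ((add_le_add h1 h2).trans (le_of_eq ?_))
    ring
  · rintro G₁ G₂ χ₁ χ₂ ⟨⟨B₁, hB₁⟩, h₁⟩ ⟨⟨B₂, hB₂⟩, h₂⟩
    refine ⟨⟨|B₁| * |B₂|, fun z hz => ?_⟩, fun K => ?_⟩
    · rw [norm_mul]
      exact mul_le_mul ((hB₁ z hz).trans (le_abs_self _)) ((hB₂ z hz).trans (le_abs_self _))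
        (norm_nonneg _) (abs_nonneg _)
    obtain ⟨K₂, hK₂⟩ : ∃ K₂ : ℕ, ∀ k, (χ₂ k).natAbs ≤ K₂ :=
      ⟨∑ k, (χ₂ k).natAbs, fun k =>
        Finset.single_le_sum (f := fun k => (χ₂ k).natAbs) (fun _ _ => Nat.zero_le _) (Finset.mem_univ k)⟩
    obtain ⟨C₁, n₁, hC₁, H₁⟩ := h₁ (K + K₂)
    obtain ⟨C₂, n₂, hC₂, H₂⟩ := h₂ K
    refine ⟨C₁ * (|B₂| + C₂) + |B₁| * C₂, max (max n₁ n₂) (K + K₂ + 1), by positivity,
      fun n hn m m' hm hs => ?_⟩
    have hn1 : n₁ ≤ n := ((le_max_left _ _).trans (le_max_left _ _)).trans hn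
    have hn2 : n₂ ≤ n := ((le_max_right _ _).trans (le_max_left _ _)).trans hn
    have hn3 : K + K₂ + 1 ≤ n := (le_max_right _ _).trans hn
    obtain ⟨m'', hm''⟩ : ∃ m'' : κ → ℕ, ∀ k, (m'' k : ℤ) = m k + χ₂ k := by
      refine ⟨fun k => ((m k : ℤ) + χ₂ k).toNat, fun k => Int.toNat_of_nonneg ?_⟩
      have h1 := (hm k).2
      have h2 := hK₂ k
      omega
    have hs1 : Sh m'' χ₁ m' := fun k => by
      have h1 := hs k
      have h2 := hm'' k
      rw [Pi.add_apply] at h1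
      omega
    have hnear : Near (K + K₂) n m'' := fun k => by
      have h1 := hm k
      have h2 := hK₂ k
      have h3 := hm'' k
      constructor <;> omega
    obtain ⟨T₂, hT₂⟩ := H₂ n hn2 m m'' hm hm''
    obtain ⟨T₁, hT₁⟩ := H₁ n hn1 m'' m' hnear hs1
    refine ⟨T₁ ∘ₗ T₂, fun u M hM z hz => ?_⟩
    have hM0 : 0 ≤ M := (norm_nonneg _).trans (hM z hz)
    have hsq : 1 ≤ Real.sqrt n := by
      rw [Real.one_le_sqrt]
      have : 1 ≤ n := by omega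
      exact_mod_cast this
    have hB : ∀ w ∈ Sph b, ‖eval w ((T₂ u : Pool.Agent.Helper70.BU.H b m'') : MvPolynomial ι ℂ)‖ ≤
        (|B₂| + C₂) * M := fun w hw => by
      have h1 := hT₂ u M hM w hw
      have h2 : ‖G₂ w * eval w (u : MvPolynomial ι ℂ)‖ ≤ |B₂| * M := by
        rw [norm_mul]
        exact mul_le_mul ((hB₂ w hw).trans (le_abs_self _)) (hM w hw) (norm_nonneg _) (abs_nonneg _)
      have h3 : C₂ / Real.sqrt n * M ≤ C₂ * M :=
        mul_le_mul_of_nonneg_right (div_le_self hC₂ hsq) hM0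
      have h4 := norm_le_norm_sub_add (eval w ((T₂ u : Pool.Agent.Helper70.BU.H b m'') :
        MvPolynomial ι ℂ)) (G₂ w * eval w (u : MvPolynomial ι ℂ))
      linarith
    have h5 := hT₁ (T₂ u) _ hB z hz
    have h6 := hT₂ u M hM z hz
    have h7 : ‖G₁ z * (eval z ((T₂ u : Pool.Agent.Helper70.BU.H b m'') : MvPolynomial ι ℂ) -
        G₂ z * eval z (u : MvPolynomial ι ℂ))‖ ≤ |B₁| * (C₂ / Real.sqrt n * M) := by
      rw [norm_mul]
      exact mul_le_mul ((hB₁ z hz).trans (le_abs_self _)) h6 (norm_nonneg _) (abs_nonneg _)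
    have h8 : eval z (((T₁ ∘ₗ T₂) u : Pool.Agent.Helper70.BU.H b m') : MvPolynomial ι ℂ) -
        G₁ z * G₂ z * eval z (u : MvPolynomial ι ℂ) =
        (eval z ((T₁ (T₂ u) : Pool.Agent.Helper70.BU.H b m') : MvPolynomial ι ℂ) -
          G₁ z * eval z ((T₂ u : Pool.Agent.Helper70.BU.H b m'') : MvPolynomial ι ℂ)) +
        G₁ z * (eval z ((T₂ u : Pool.Agent.Helper70.BU.H b m'') : MvPolynomial ι ℂ) -
          G₂ z * eval z (u : MvPolynomial ι ℂ)) := by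
      rw [LinearMap.comp_apply]
      ring
    rw [h8]
    refine (norm_add_le _ _).trans ((add_le_add h5 h7).trans (le_of_eq ?_))
    ring

end Pool.Agent.Helper20.BU
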